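import Pool.Agent.helper41.G5.SpecG

set_option autoImplicit false

open Filter Topology MeasureTheory

namespace Pool.Agent.helper90.DH

open Pool.Agent.helper64.D2

theorem gWDL : gWDL_stmt := by
  intro β hβ u N p z τ ω hp hz x hx
  obtain ⟨-, -, hβ1, hβ0⟩ := hβ
  have h2 : (0 : ℝ) < 2 ^ u := by positivity
  have hx' : ((2 * z + p : ℕ) : ℝ) ≤ 2 ^ u * x ∧ 2 ^ u * x < ((2 * z + p : ℕ) : ℝ) + 1 := by
    unfold cell at hx
    obtain ⟨ha, hb⟩ := hx
    rw [div_le_iff₀ h2] at ha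
    rw [lt_div_iff₀ h2] at hb
    constructor
    · have : (((2 * z + p : ℕ) : ℤ) : ℝ) = ((2 * z + p : ℕ) : ℝ) := by norm_cast
      rw [this] at ha
      linarith [mul_comm x (2 ^ u : ℝ)]
    · have : (((2 * z + p : ℕ) : ℤ) : ℝ) = ((2 * z + p : ℕ) : ℝ) := by norm_cast
      rw [this] at hb
      linarith [mul_comm x (2 ^ u : ℝ)]
  obtain ⟨hxa, hxb⟩ := hx'
  have key : ∑ l ∈ Finset.Ico (2 ^ (u - 3) + 2) (7 * 2 ^ (u - 3) - 2), ((ω l : ℝ) / N) * β (2 ^ u * x - l) =
      ((ω (2 * z + p) : ℝ) / N) +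
        ∑ l ∈ Finset.Ico (2 ^ (u - 3) + 2) (7 * 2 ^ (u - 3) - 2), (((if l % 2 = p then 0 else ω l : ℕ) : ℝ) / N) * β (2 ^ u * x - l) := by
    rw [← sub_eq_iff_eq_add, ← Finset.sum_sub_distrib]
    rw [Finset.sum_eq_single (2 * z + p)]
    · have hmod : (2 * z + p) % 2 = p := by omega
      rw [if_pos hmod]
      rw [hβ1 _ ⟨by linarith, by linarith⟩]
      simp
    · intro l hl hne
      by_cases hl2 : l % 2 = p
      · have hb : β (2 ^ u * x - l) = 0 := by
          apply hβ0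
          rintro ⟨h3, h4⟩
          rcases lt_or_gt_of_ne hne with h5 | h5
          · have h6 : l + 2 ≤ 2 * z + p := by omega
            have h7 : ((l + 2 : ℕ) : ℝ) ≤ ((2 * z + p : ℕ) : ℝ) := by exact_mod_cast h6
            push_cast at h7 hxa
            linarith
          · have h6 : 2 * z + p + 2 ≤ l := by omega
            have h7 : ((2 * z + p + 2 : ℕ) : ℝ) ≤ (l : ℝ) := by exact_mod_cast h6
            push_cast at h7 hxb
            linarith
        rw [hb]; simp
      · rw [if_neg hl2]; simp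
    · intro h; exact absurd hz h
  unfold Wd
  rw [key, mul_add]

end Pool.Agent.helper90.DH
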